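import Pool.Agent.W653.SC.Defs

/-!
# SC-BALL: lower bounds on balls and hyperplanes with varying central elements (helper337)
-/

open MeasureTheory Matrix
open scoped Matrix.Norms.Frobenius ContDiff

namespace Pool.Agent.W337.SC.Ball

open Pool.Agent.H906R3.YM Pool.Agent.W58 Pool.Agent.W653.CF Pool.Agent.W653.SC

set_option linter.unusedSectionVars false

section acc

variable {N n : ℕ} {G : Type*} [Group G] [TopologicalSpace G] {L : LD G N n}
  [IsTopologicalGroup G] [CompactSpace G] [SecondCountableTopology G]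
  [MeasurableSpace G] [BorelSpace G] {μ : Measure G} [IsProbabilityMeasure μ]
  [μ.IsMulLeftInvariant] {E : Type*} [Fintype E] [DecidableEq E]
  {S' : Type*} [Fintype S'] [DecidableEq S']

lemma acc_pd {r : ℝ} {h : G} (hp : Pool.Agent.W504.YM.Pd L r h) (ι : S' → E) (s : S') :
    Acc L μ ι (Pi.mulSingle (ι s) h) := by
  induction hp with
  | one =>
    rw [Pi.mulSingle_one]
    exact Acc.one ι
  | step hp hc ih =>
    rw [Pi.mulSingle_mul]
    exact (Acc.path (μ := μ) (ι := ι) hc.d hc.zero s).mul ih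

lemma acc_gen {r : ℝ} (hr : Pool.Agent.W504.YM.Cn L r) (C : Finset E) {c : E → G}
    (hout : ∀ e, e ∉ C → c e = 1) : Acc L μ (cι C) c := by
  refine Acc.of_single (fun s => ?_) (fun e he => ?_)
  · obtain ⟨r', -, hp⟩ := hr (c (cι C s))
    exact acc_pd hp (cι C) s
  · exact hout e fun h => he ⟨⟨e, h⟩, rfl⟩

end acc

theorem main : StmtBall := by
  intro G _ _ _ _ _ _ _ μ _ _ _ N n D l _ L hN r hr p hp K Y hY hK g E0 hnear x T z hz φ hT
  have hK' : ∀ v : Fin n → ℝ, K * ∑ b, v b ^ 2 ≤ 1 / 4 * ∑ a, ∑ c, (∑ b, L.sc a c b * v b) ^ 2 := by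
    intro v
    have := hK v
    linarith
  have h := conf (μ := μ) hN (R := {r // r ∈ T}) (fun r => CuF x r.1)
    (fun r s hrs => CuF_disj x fun h => hrs (Subtype.ext h)) (fun r => zc (z r.1) x r.1)
    (fun r => cen_zc (hz r.1 r.2).1 x r.1) (fun r => acc_gen hr (CuF x r.1) (fun e he => by
      have h1 : ¬Cut x r.1 e := fun h => he (Finset.mem_filter.2 ⟨Finset.mem_univ _, h⟩)
      unfold zc
      rw [sgn_eq_zero h1, zpow_zero])) hp (u := φ)
    (fun r => hT r.1 r.2) hY hK' (g := g) (E0 := E0) (V := VT L D l) (by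
      intro ε hε
      obtain ⟨ψ, p, h1, h2, -, h4, h5⟩ := hnear (φ * φ) (fun U => by
        rw [map_mul]; exact mul_self_nonneg _) ε hε
      exact ⟨ψ, p, h1, fun r => tw_inv (hz r.1 r.2).1 x r.1 h2, h4, h5⟩)
  rw [Fintype.card_coe] at h
  exact h

theorem main2 : StmtHyp := by
  intro G _ _ _ _ _ _ _ μ _ _ _ N n D l _ L hN r hr p hp K Y hY hK g E0 hnear T z hz1 φ hT
  have hK' : ∀ v : Fin n → ℝ, K * ∑ b, v b ^ 2 ≤ 1 / 4 * ∑ a, ∑ c, (∑ b, L.sc a c b * v b) ^ 2 := by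
    intro v
    have := hK v
    linarith
  have h := conf (μ := μ) hN (R := {i // i ∈ T} × ZMod l) (fun r => HF r.1.1 r.2)
    (fun r s hrs => HF_disj fun h => hrs (Prod.ext (Subtype.ext (Prod.ext_iff.1 h).1)
      (Prod.ext_iff.1 h).2)) (fun r => hz (z r.1.1) r.1.1 r.2)
    (fun r => cen_hz (hz1 r.1.1 r.1.2) r.1.1 r.2) (fun r => acc_gen hr (HF r.1.1 r.2)
      (fun e he => hz_not fun h => he (Finset.mem_filter.2 ⟨Finset.mem_univ _, h⟩))) hp (u := φ)
    (fun r => hT r.1.1 r.1.2 r.2) hY hK' (g := g) (E0 := E0) (V := VT L D l) (by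
      intro ε hε
      obtain ⟨ψ, p, h1, -, h3, h4, h5⟩ := hnear (φ * φ) (fun U => by
        rw [map_mul]; exact mul_self_nonneg _) ε hε
      exact ⟨ψ, p, h1, fun r => h3 _ (cen_hz (hz1 r.1.1 r.1.2) r.1.1 r.2)
        (tw_VT (hz1 r.1.1 r.1.2) r.1.1 r.2), h4, h5⟩)
  rw [Fintype.card_prod, Fintype.card_coe, ZMod.card] at h
  exact h

end Pool.Agent.W337.SC.Ball
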