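import Pool.Agent.W653.SC.Defs

/-!
# SC-OSC: oscillation of the magnetic energy (helper337)
-/

open MeasureTheory Matrix
open scoped Matrix.Norms.Frobenius ContDiff

namespace Pool.Agent.W337.SC.Osc

open Pool.Agent.H906R3.YM Pool.Agent.W58 Pool.Agent.W653.CF Pool.Agent.W653.SC

theorem main : StmtOsc := by
  classical
  intro G _ _ N n D l _ L S U V hUV
  have e1 : ∀ W : Ed D l → G, (VT L D l).1 W = ∑ p : Pl D l, we L (plqT W p.1.1 p.1.2.1 p.1.2.2) :=
    fun W => VT_apply (L := L) W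
  rw [e1, e1, ← Finset.sum_sub_distrib]
  obtain ⟨ind, hind⟩ : ∃ ind : Ed D l → ℝ, ind = fun e => if e ∈ S then 1 else 0 := ⟨_, rfl⟩
  have hi0 : ∀ e, 0 ≤ ind e := fun e => by
    rw [hind]; dsimp only; split_ifs <;> norm_num
  have hi1 : ∀ e, e ∈ S → ind e = 1 := fun e he => by rw [hind]; simp [he]
  obtain ⟨F, hF⟩ : ∃ F : (Fin D → ZMod l) × Fin D × Fin D → ℝ, F = fun p =>
    (2 * N : ℝ) * (ind (p.1, p.2.1) + ind (p.1 + eT p.2.1, p.2.2) +
      ind (p.1 + eT p.2.2, p.2.1) + ind (p.1, p.2.2)) := ⟨_, rfl⟩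
  have hN0 : (0 : ℝ) ≤ 2 * N := by positivity
  have hF0 : ∀ p, 0 ≤ F p := fun p => by
    rw [hF]; dsimp only
    have a1 := hi0 (p.1, p.2.1)
    have a2 := hi0 (p.1 + eT p.2.1, p.2.2)
    have a3 := hi0 (p.1 + eT p.2.2, p.2.1)
    have a4 := hi0 (p.1, p.2.2)
    exact mul_nonneg hN0 (by linarith)
  have h1 : ∀ p : Pl D l, |we L (plqT U p.1.1 p.1.2.1 p.1.2.2) -
      we L (plqT V p.1.1 p.1.2.1 p.1.2.2)| ≤ F p.1 := by
    intro p
    by_cases hc : (p.1.1, p.1.2.1) ∉ S ∧ (p.1.1 + eT p.1.2.1, p.1.2.2) ∉ S ∧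
        (p.1.1 + eT p.1.2.2, p.1.2.1) ∉ S ∧ (p.1.1, p.1.2.2) ∉ S
    · obtain ⟨c1, c2, c3, c4⟩ := hc
      have : plqT U p.1.1 p.1.2.1 p.1.2.2 = plqT V p.1.1 p.1.2.1 p.1.2.2 := by
        unfold plqT
        rw [hUV _ c1, hUV _ c2, hUV _ c3, hUV _ c4]
      rw [this, sub_self, abs_zero]
      exact hF0 _
    · have h2 : |we L (plqT U p.1.1 p.1.2.1 p.1.2.2) -
          we L (plqT V p.1.1 p.1.2.1 p.1.2.2)| ≤ 2 * N := by
        have b1 := we_nonneg (L := L) (plqT U p.1.1 p.1.2.1 p.1.2.2)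
        have b2 := we_nonneg (L := L) (plqT V p.1.1 p.1.2.1 p.1.2.2)
        have b3 := we_le (L := L) (plqT U p.1.1 p.1.2.1 p.1.2.2)
        have b4 := we_le (L := L) (plqT V p.1.1 p.1.2.1 p.1.2.2)
        exact abs_le.2 ⟨by linarith, by linarith⟩
      refine h2.trans ?_
      rw [hF]; dsimp only
      have a1 := hi0 (p.1.1, p.1.2.1)
      have a2 := hi0 (p.1.1 + eT p.1.2.1, p.1.2.2)
      have a3 := hi0 (p.1.1 + eT p.1.2.2, p.1.2.1)
      have a4 := hi0 (p.1.1, p.1.2.2)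
      have h3 : 1 ≤ ind (p.1.1, p.1.2.1) + ind (p.1.1 + eT p.1.2.1, p.1.2.2) +
          ind (p.1.1 + eT p.1.2.2, p.1.2.1) + ind (p.1.1, p.1.2.2) := by
        by_contra hlt
        push Not at hlt
        apply hc
        refine ⟨fun h => ?_, fun h => ?_, fun h => ?_, fun h => ?_⟩ <;>
        · have := hi1 _ h
          linarith
      calc (2 * N : ℝ) = (2 * N) * 1 := by ring
        _ ≤ _ := mul_le_mul_of_nonneg_left h3 hN0
  have h2 : ∑ p : Pl D l, F p.1 ≤ ∑ p, F p := by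
    have h3 := Finset.sum_map (Finset.univ : Finset (Pl D l)) (Function.Embedding.subtype _) F
    have h4 : ∑ p : Pl D l, F p.1 = ∑ p ∈ (Finset.univ : Finset (Pl D l)).map
      (Function.Embedding.subtype _), F p := h3.symm
    rw [h4]
    exact Finset.sum_le_sum_of_subset_of_nonneg (Finset.subset_univ _) fun p _ _ => hF0 _
  have h3 : |∑ p : Pl D l, (we L (plqT U p.1.1 p.1.2.1 p.1.2.2) -
      we L (plqT V p.1.1 p.1.2.1 p.1.2.2))| ≤ ∑ p : Pl D l, F p.1 :=
    (Finset.abs_sum_le_sum_abs _ _).trans (Finset.sum_le_sum fun p _ => h1 p)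
  refine (h3.trans h2).trans (le_of_eq ?_)
  set W := ∑ e : Ed D l, ind e with hW
  have hWS : W = S.card := by
    rw [hW, hind, Finset.sum_ite_mem, Finset.univ_inter]
    simp
  have hW' : W = ∑ x : Fin D → ZMod l, ∑ i : Fin D, ind (x, i) := by
    rw [hW, Fintype.sum_prod_type]
  have hWc : W = ∑ i : Fin D, ∑ x : Fin D → ZMod l, ind (x, i) := by
    rw [hW', Finset.sum_comm]
  have c1 : ∑ x : Fin D → ZMod l, ∑ i : Fin D, ∑ j : Fin D, ind (x, i) = D * W := by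
    simp only [Finset.sum_const, Finset.card_univ, Fintype.card_fin, nsmul_eq_mul]
    rw [hW', Finset.mul_sum]
    exact Finset.sum_congr rfl fun x _ => by rw [Finset.mul_sum]
  have c4 : ∑ x : Fin D → ZMod l, ∑ i : Fin D, ∑ j : Fin D, ind (x, j) = D * W := by
    simp only [Finset.sum_const, Finset.card_univ, Fintype.card_fin, nsmul_eq_mul]
    rw [hW', Finset.mul_sum]
  have sh : ∀ (v : Fin D → ZMod l) (j : Fin D),
      ∑ x : Fin D → ZMod l, ind (x + v, j) = ∑ x : Fin D → ZMod l, ind (x, j) :=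
    fun v j => Fintype.sum_equiv (Equiv.addRight v) _ _ fun x => rfl
  have c2 : ∑ x : Fin D → ZMod l, ∑ i : Fin D, ∑ j : Fin D, ind (x + eT i, j) = D * W := by
    rw [Finset.sum_comm]
    have : ∀ i : Fin D, ∑ x : Fin D → ZMod l, ∑ j : Fin D, ind (x + eT i, j) = W := by
      intro i
      rw [Finset.sum_comm, hWc]
      exact Finset.sum_congr rfl fun j _ => sh _ _
    rw [Finset.sum_congr rfl fun i _ => this i]
    simp
  have c3 : ∑ x : Fin D → ZMod l, ∑ i : Fin D, ∑ j : Fin D, ind (x + eT j, i) = D * W := by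
    have h5 : ∀ x : Fin D → ZMod l, ∑ i : Fin D, ∑ j : Fin D, ind (x + eT j, i) =
        ∑ j : Fin D, ∑ i : Fin D, ind (x + eT j, i) := fun x => Finset.sum_comm
    rw [Finset.sum_congr rfl fun x _ => h5 x]
    exact c2
  rw [Fintype.sum_prod_type]
  have h6 : ∀ x : Fin D → ZMod l, ∑ q : Fin D × Fin D, F (x, q) =
      (2 * N : ℝ) * (∑ i : Fin D, ∑ j : Fin D, ind (x, i) +
        ∑ i : Fin D, ∑ j : Fin D, ind (x + eT i, j) +
        ∑ i : Fin D, ∑ j : Fin D, ind (x + eT j, i) +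
        ∑ i : Fin D, ∑ j : Fin D, ind (x, j)) := by
    intro x
    rw [Fintype.sum_prod_type]
    simp only [hF, Finset.mul_sum, mul_add, Finset.sum_add_distrib]
  rw [Finset.sum_congr rfl fun x _ => h6 x, ← Finset.mul_sum]
  simp only [Finset.sum_add_distrib]
  rw [c1, c2, c3, c4, hWS]
  ring

end Pool.Agent.W337.SC.Osc
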