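import Pool.Agent.W653.SC.Defs
import Pool.Agent.H906R3.YM.Vec

/-!
# SC-POS: families of functions with invariant sum of squares (helper337)
-/

open MeasureTheory Matrix
open scoped Matrix.Norms.Frobenius ContDiff

namespace Pool.Agent.W337.SC.Pos

open Pool.Agent.H906R3.YM Pool.Agent.W58 Pool.Agent.W653.CF Pool.Agent.W653.SC

theorem main : StmtPos := by
  intro G _ _ _ _ _ _ _ μ _ _ N n D l _ L g E0 hinv κ _ Y hY
  classical
  let e := Fintype.equivFin κ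
  have hpos : ∀ u : Sm L (Ed D l), Inv u →
      0 ≤ (fnE L μ (Ed D l)).enr g (VT L D l) E0 u u := by
    intro u hu
    rw [Fn.enr_eq]
    have h1 := hinv u hu
    unfold en at h1
    have h2 : (fnE L μ (Ed D l)).I = L.I μ := rfl
    have h3 : (fnE L μ (Ed D l)).D = L.Dv := rfl
    rw [h2, h3]
    linarith
  obtain ⟨Z, hZ⟩ : ∃ Z : Fin (Fintype.card κ) → Sm L (Ed D l), Z = fun a => Y (e.symm a) :=
    ⟨_, rfl⟩
  have hZY : ∀ γ, ∑ a, gs γ (Z a) * gs γ (Z a) = ∑ a, Z a * Z a := by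
    intro γ
    rw [hZ, Equiv.sum_comp e.symm (fun a => gs γ (Y a) * gs γ (Y a)),
      Equiv.sum_comp e.symm (fun a => Y a * Y a)]
    exact hY γ
  have h : 0 ≤ ∑ a, (fnE L μ (Ed D l)).enr g (VT L D l) E0 (Z a) (Z a) := by
    refine vec_abs (fnE L μ (Ed D l)) Z fun s hs => ⟨rad Z s hs, radi Z s hs, radi_mul Z s hs,
      rad_mul Z s hs, radi_pos Z s hs, hpos _ fun γ => ?_⟩
    refine ev_ext fun U => ?_
    have h1 := congrArg (L.ev U) (hZY γ)
    rw [map_sum, map_sum] at h1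
    have h2 : ∑ a, (Z a).1 (gt γ U) * (Z a).1 (gt γ U) = ∑ a, (Z a).1 U * (Z a).1 U := h1
    show Real.sqrt (s ^ 2 + ∑ a, (Z a).1 (gt γ U) * (Z a).1 (gt γ U)) =
      Real.sqrt (s ^ 2 + ∑ a, (Z a).1 U * (Z a).1 U)
    rw [h2]
  rw [hZ, Equiv.sum_comp e.symm
    (fun a => (fnE L μ (Ed D l)).enr g (VT L D l) E0 (Y a) (Y a))] at h
  have h4 : ∑ a, (fnE L μ (Ed D l)).enr g (VT L D l) E0 (Y a) (Y a) =
      ∑ a, en μ g (Y a) - E0 * ∑ a, L.I μ (Y a * Y a) := by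
    rw [Finset.mul_sum, ← Finset.sum_sub_distrib]
    refine Finset.sum_congr rfl fun a _ => ?_
    rw [Fn.enr_eq]
    rfl
  rw [h4] at h
  linarith

end Pool.Agent.W337.SC.Pos
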